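import Pool.Agent.V5helper84.SL.Stm

/-!
# Project SL, job ABS: cancellation of the signature by anti-similitudes
-/

set_option autoImplicit false

universe v

namespace Pool.Agent.V5helper81.SL

open Finset Pool.Agent.W539.Ker Pool.Agent.V5helper84.SL

section

variable {M : Type v} [AddCommGroup M] [Module ℚ M] {B : M →ₗ[ℚ] M →ₗ[ℚ] ℚ}

/-- idempotent and self-adjoint -/
def SA (B : M →ₗ[ℚ] M →ₗ[ℚ] ℚ) (R : Module.End ℚ M) : Prop :=
  R * R = R ∧ ∀ x y, B (R x) y = B x (R y)

theorem SA.idem {R : Module.End ℚ M} (h : SA B R) (x : M) : R (R x) = R x := by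
  have := LinearMap.congr_fun h.1 x
  simpa [Module.End.mul_apply] using this

theorem SA.symm {R : Module.End ℚ M} (h : SA B R) (hB : ∀ x y, B x y = B y x) (x y : M) :
    (B.comp R) x y = (B.comp R) y x := by
  rw [LinearMap.comp_apply, LinearMap.comp_apply, h.2, hB]

theorem SA.both {R : Module.End ℚ M} (h : SA B R) (x y : M) : B (R x) (R y) = B (R x) y := by
  rw [← h.2, h.idem]

theorem SA.bdd {R : Module.End ℚ M} (h : SA B R) {N : ℕ} (hN : Bdd B N) : Bdd (B.comp R) N := by
  intro m x h1 h2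
  refine hN m (fun i => R (x i)) (fun i => ?_) (fun i j hij => ?_)
  · rw [h.both]; exact h1 i
  · rw [h.both]; exact h2 i j hij

theorem SA.compl {R : Module.End ℚ M} (h : SA B R) : SA B (1 - R) := by
  refine ⟨?_, fun x y => ?_⟩
  · rw [mul_sub, sub_mul, one_mul, sub_mul, one_mul, h.1, mul_one, sub_self, sub_zero]
  · rw [LinearMap.sub_apply, LinearMap.sub_apply, Module.End.one_apply, Module.End.one_apply,
      map_sub, LinearMap.sub_apply, map_sub, h.2]

theorem SA.mul {R P : Module.End ℚ M} (h : SA B R) (hP : SA B P) (hc : Commute R P) :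
    SA B (R * P) := by
  refine ⟨?_, fun x y => ?_⟩
  · have h1 : R * P * (R * P) = R * (P * R) * P := by simp only [mul_assoc]
    rw [h1, ← hc.eq]
    have h2 : R * (R * P) * P = (R * R) * (P * P) := by simp only [mul_assoc]
    rw [h2, h.1, hP.1]
  · rw [Module.End.mul_apply, h.2, hP.2]
    have := LinearMap.congr_fun hc.eq y
    rw [Module.End.mul_apply, Module.End.mul_apply] at this
    rw [Module.End.mul_apply, this]

theorem sgn_eq (hB : ∀ x y, B x y = B y x) {ι : Type*} [Fintype ι] {x : ι → M} (h : OM B x) :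
    sgn B = ∑ i, ((SignType.sign (B (x i) (x i)) : SignType) : ℤ) :=
  h.signature_eq hB

theorem sgn_le (hB : ∀ x y, B x y = B y x) {N : ℕ} (hN : Bdd B N) : |sgn B| ≤ N := by
  obtain ⟨m, x, h⟩ := exists_OM hB hN
  rw [sgn_eq hB h]
  refine (Finset.abs_sum_le_sum_abs _ _).trans ?_
  have h1 : ∀ i ∈ (univ : Finset (Fin m)),
      |((SignType.sign (B (x i) (x i)) : SignType) : ℤ)| ≤ 1 := by
    intro i _
    rcases lt_trichotomy (B (x i) (x i)) 0 with h0 | h0 | h0
    · rw [sign_neg h0]; simp
    · rw [h0, sign_zero]; simp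
    · rw [sign_pos h0]; simp
  refine (Finset.sum_le_sum h1).trans ?_
  rw [Finset.sum_const, Finset.card_univ, Fintype.card_fin, nsmul_eq_mul, mul_one]
  exact_mod_cast hN m x h.ne h.orth

/-- the image of an idempotent with an anti-similitude contributes nothing -/
theorem sgn_pair {P T : Module.End ℚ M} {κ : ℚ} (h : Pr B P T κ) : sgn (B.comp P) = 0 := by
  have hT : ∀ x y, (B.comp P) (T x) (T y) = κ * (B.comp P) x y := by
    intro x y
    rw [LinearMap.comp_apply, LinearMap.comp_apply]
    have h1 : P (T x) = T x := by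
      have := LinearMap.congr_fun h.PT x
      simpa [Module.End.mul_apply] using this
    rw [h1, h.anti]
  have h1 : {r | PosFam (fun x y => (B.comp P) x y) r} =
      {r | PosFam (fun x y => -(B.comp P) x y) r} := by
    ext r
    constructor
    · rintro ⟨z, hz, hz0⟩
      refine ⟨fun i => T (z i), fun i => ?_, fun i j hij => ?_⟩
      · show 0 < -(B.comp P) (T (z i)) (T (z i))
        rw [hT]
        have h2 := hz i
        have h3 := h.neg
        have h4 : 0 < (-κ) * (B.comp P) (z i) (z i) := mul_pos (by linarith) h2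
        linarith
      · show -(B.comp P) (T (z i)) (T (z j)) = 0
        rw [hT]
        have h2 : (B.comp P) (z i) (z j) = 0 := hz0 i j hij
        rw [h2, mul_zero, neg_zero]
    · rintro ⟨z, hz, hz0⟩
      refine ⟨fun i => T (z i), fun i => ?_, fun i j hij => ?_⟩
      · show 0 < (B.comp P) (T (z i)) (T (z i))
        rw [hT]
        have h2 : 0 < -(B.comp P) (z i) (z i) := hz i
        have h3 := h.neg
        exact mul_pos_of_neg_of_neg h3 (by linarith)
      · show (B.comp P) (T (z i)) (T (z j)) = 0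
        rw [hT]
        have h2 : -(B.comp P) (z i) (z j) = 0 := hz0 i j hij
        rw [neg_eq_zero.1 h2, mul_zero]
  unfold sgn posIdx
  rw [h1, sub_self]

/-- the signature of a direct sum -/
theorem sgn_split (hB : ∀ x y, B x y = B y x) {N : ℕ} (hN : Bdd B N) {P : Module.End ℚ M}
    (h : SA B P) : sgn B = sgn (B.comp P) + sgn (B.comp (1 - P)) := by
  have hc := h.compl
  obtain ⟨m, y, hy⟩ := exists_OM (h.symm hB) (h.bdd hN)
  obtain ⟨n, x, hx⟩ := exists_OM (hc.symm hB) (hc.bdd hN)
  let z : Fin m ⊕ Fin n → M := Sum.elim (fun i => P (y i)) (fun j => (1 - P) (x j))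
  have h1 : ∀ i j, B (P (y i)) (P (y j)) = (B.comp P) (y i) (y j) := fun i j => h.both _ _
  have h2 : ∀ i j, B ((1 - P) (x i)) ((1 - P) (x j)) = (B.comp (1 - P)) (x i) (x j) :=
    fun i j => hc.both _ _
  have h3 : ∀ a b, B (P a) ((1 - P) b) = 0 := by
    intro a b
    rw [h.2]
    have : P ((1 - P) b) = 0 := by
      rw [LinearMap.sub_apply, Module.End.one_apply, map_sub, h.idem, sub_self]
    rw [this, map_zero]
  have hz : OM B z := by
    refine ⟨?_, ?_, ?_⟩
    · rintro (i | j)
      · show B (P (y i)) (P (y i)) ≠ 0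
        rw [h1]; exact hy.ne i
      · show B ((1 - P) (x j)) ((1 - P) (x j)) ≠ 0
        rw [h2]; exact hx.ne j
    · rintro (i | i) (j | j) hij
      · show B (P (y i)) (P (y j)) = 0
        rw [h1]; exact hy.orth i j (fun e => hij (by rw [e]))
      · exact h3 _ _
      · show B ((1 - P) (x i)) (P (y j)) = 0
        rw [hB]; exact h3 _ _
      · show B ((1 - P) (x i)) ((1 - P) (x j)) = 0
        rw [h2]; exact hx.orth i j (fun e => hij (by rw [e]))
    · intro u hu
      have h4 : (B.comp P) u u = 0 := hy.max u fun i => by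
        rw [LinearMap.comp_apply, h.2]
        exact hu (Sum.inl i)
      have h5 : (B.comp (1 - P)) u u = 0 := hx.max u fun j => by
        rw [LinearMap.comp_apply, hc.2]
        exact hu (Sum.inr j)
      rw [LinearMap.comp_apply] at h4 h5
      rw [LinearMap.sub_apply, Module.End.one_apply, map_sub, LinearMap.sub_apply, h4,
        sub_zero] at h5
      exact h5
  rw [sgn_eq hB hz, sgn_eq (h.symm hB) hy, sgn_eq (hc.symm hB) hx, Fintype.sum_sum_type]
  congr 1
  · refine Finset.sum_congr rfl fun i _ => ?_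
    show ((SignType.sign (B (P (y i)) (P (y i))) : SignType) : ℤ) = _
    rw [h1]
  · refine Finset.sum_congr rfl fun i _ => ?_
    show ((SignType.sign (B ((1 - P) (x i)) ((1 - P) (x i))) : SignType) : ℤ) = _
    rw [h2]

theorem Pr.sa {P T : Module.End ℚ M} {κ : ℚ} (h : Pr B P T κ) : SA B P := ⟨h.idem, h.self⟩

/-- one pair -/
theorem sgn_step (hB : ∀ x y, B x y = B y x) {N : ℕ} (hN : Bdd B N) {P T : Module.End ℚ M} {κ : ℚ}
    (h : Pr B P T κ) : sgn B = sgn (B.comp (1 - P)) := by
  rw [sgn_split hB hN (Pr.sa h), sgn_pair h, zero_add]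

/-- the induction -/
theorem sgn_list (hB : ∀ x y, B x y = B y x) {N : ℕ} (hN : Bdd B N) :
    ∀ l : List (Module.End ℚ M × Module.End ℚ M × ℚ), (∀ a ∈ l, Pr B a.1 a.2.1 a.2.2) →
      l.Pairwise (fun a b => Commute a.1 b.1 ∧ Commute a.2.1 b.1 ∧ Commute a.1 b.2.1) →
      ∀ R : Module.End ℚ M, SA B R → (∀ a ∈ l, Commute R a.1 ∧ Commute R a.2.1) →
      SA B (R * Qp l) ∧ sgn (B.comp R) = sgn (B.comp (R * Qp l)) := by
  intro l
  induction l with
  | nil =>
    intro _ _ R hR _
    have : Qp ([] : List (Module.End ℚ M × Module.End ℚ M × ℚ)) = 1 := rfl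
    rw [this, mul_one]
    exact ⟨hR, rfl⟩
  | cons a l ih =>
    intro ha hp R hR hc
    rw [List.pairwise_cons] at hp
    have h1 := ha a List.mem_cons_self
    have h2 := hc a List.mem_cons_self
    have hP : SA B (1 - a.1) := (Pr.sa h1).compl
    have hcR : Commute R (1 - a.1) := (Commute.one_right R).sub_right h2.1
    have hR' : SA B (R * (1 - a.1)) := hR.mul hP hcR
    have h3 : ∀ b ∈ l, Commute (R * (1 - a.1)) b.1 ∧ Commute (R * (1 - a.1)) b.2.1 := by
      intro b hb
      have h4 := hc b (List.mem_cons_of_mem _ hb)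
      have h5 := hp.1 b hb
      exact ⟨h4.1.mul_left ((Commute.one_left _).sub_left h5.1),
        h4.2.mul_left ((Commute.one_left _).sub_left h5.2.2)⟩
    have h6 := ih (fun b hb => ha b (List.mem_cons_of_mem _ hb)) hp.2 (R * (1 - a.1)) hR' h3
    have h7 : Qp (a :: l) = (1 - a.1) * Qp l := rfl
    rw [h7, ← mul_assoc]
    refine ⟨h6.1, ?_⟩
    rw [← h6.2]
    have h8 : Pr (B.comp R) a.1 a.2.1 a.2.2 := by
      refine ⟨h1.idem, h1.PT, fun x y => ?_, fun x y => ?_, h1.neg⟩
      · have h9 := LinearMap.congr_fun h2.1.eq x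
        rw [Module.End.mul_apply, Module.End.mul_apply] at h9
        rw [LinearMap.comp_apply, LinearMap.comp_apply, h9, h1.self]
      · have h9 := LinearMap.congr_fun h2.1.eq x
        rw [Module.End.mul_apply, Module.End.mul_apply] at h9
        have h10 := LinearMap.congr_fun h2.2.eq x
        rw [Module.End.mul_apply, Module.End.mul_apply] at h10
        rw [LinearMap.comp_apply, LinearMap.comp_apply, h9, h10, h1.anti]
    have h9 := sgn_step (hR.symm hB) (hR.bdd hN) h8
    have h10 : (B.comp R).comp (1 - a.1) = B.comp (R * (1 - a.1)) := rfl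
    rw [h9, h10]

end

/-- **ABS** -/
theorem t_ABS : S_ABS.{v} := by
  intro M _ _ B hB N hN l hl hp N' hN'
  have h1 : SA B (1 : Module.End ℚ M) := ⟨mul_one _, fun _ _ => rfl⟩
  have h2 := sgn_list hB hN l hl hp 1 h1 fun a _ => ⟨Commute.one_left _, Commute.one_left _⟩
  rw [one_mul] at h2
  have h3 : B.comp (1 : Module.End ℚ M) = B := rfl
  rw [h3] at h2
  rw [h2.2]
  exact sgn_le (h2.1.symm hB) hN'

end Pool.Agent.V5helper81.SL
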